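import Pool.Agent.TH145.GE.CurveLin
import Pool.Agent.W619.PQ.Curve

/-!
MP_f8080c_ag, Q1: rational curves on generic complete intersection surfaces in an arbitrary
projective variety.

Let `K` be an algebraically closed field of characteristic `0`, and let `k` be a field contained in
`K`, with algebraic closure `k'` in `K`. Let `V` be a closed subset of projective space of dimension
`n`, defined over `k'`, of dimension at most `m`. For `a` in a set `A` with `m - 2` elements, let
`F_a` be a generic member of a linear system over `k'` of forms of degree `d_a`, spanned by the forms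
`P_{a,j}`: the ratios of the coefficients `t_{a,j}` of `F_a` to one of them are, for all `a`
together, algebraically independent over `k`. Let `Z` be a set of indices `c` such that each of the
linear systems contains the monomials `x_c ^ (d_a - e) x_i ^ e` for all `i` and `e`.

Let `X` be the surface `V ∩ {F_a = 0 for all a}`. If `∑ d_a ≥ m + 2`, then all rational curves of
`X` lie in the linear subspace `x_c = 0` (`c` in `Z`). So their number is finite if `X` is
irreducible and not contained in this subspace, and their canonical degrees are bounded.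

A rational curve is given by its parametrization, by polynomials `p i` in one variable (the
homogeneous coordinates on an affine line); it is not constant: some `p i` is not a multiple of some
`p j ≠ 0`.
-/

set_option autoImplicit false

namespace Pool.Agent.Results.MP_f8080c_ag.GenericSurfaces

open MvPolynomial FF Pool.Agent.W603.LV Pool.Agent.W603.PV Pool.Agent.TH145.MG

theorem result {k K : Type} [Field k] [Field K] [IsAlgClosed K] [CharZero K] [Algebra k K]
    {n m : ℕ}
    -- a closed subset of projective space, of dimension at most `m`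
    (V : Set (MvPolynomial (Fin (n + 1)) (algebraicClosure k K)))
    (hVh : ∀ f ∈ V, ∃ e, f.IsHomogeneous e) (hV : DimLE (algebraicClosure k K) V m)
    -- linear systems of forms of degrees `d a`
    {A : Type} [Fintype A] (hA : Fintype.card A + 2 = m) (d : A → ℕ)
    {J : A → Type} [∀ a, Fintype (J a)]
    (P : ∀ a, J a → MvPolynomial (Fin (n + 1)) (algebraicClosure k K))
    (hP : ∀ a j, (P a j).IsHomogeneous (d a))
    -- the coefficients; their ratios are algebraically independent over `k`
    (t : ∀ a, J a → K) (j0 : ∀ a, J a) (h0 : ∀ a, t a (j0 a) ≠ 0)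
    (hgen : AlgebraicIndependent k fun p : (a : A) × {j : J a // j ≠ j0 a} =>
      t p.1 p.2.1 / t p.1 (j0 p.1))
    -- the forms
    (F : A → MvPolynomial (Fin (n + 1)) K)
    (hF : ∀ a, F a = ∑ j, MvPolynomial.C (t a j) * map (algebraMap (algebraicClosure k K) K) (P a j))
    -- the linear systems contain monomials in two variables
    (Z : Set (Fin (n + 1)))
    (hZ : ∀ c ∈ Z, ∀ (a : A) (i : Fin (n + 1)) (e : ℕ), e ≤ d a →
      ∃ j, P a j = X c ^ (d a - e) * X i ^ e)
    (hd : m + 2 ≤ ∑ a, d a)
    -- a rational curve on the surface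
    (p : Fin (n + 1) → Polynomial K)
    (hp : ∃ i j, p j ≠ 0 ∧ ∀ c : K, p i ≠ Polynomial.C c * p j)
    (hpV : ∀ f ∈ V, aeval p (map (algebraMap (algebraicClosure k K) K) f) = 0)
    (hpF : ∀ a, aeval p (F a) = 0) :
    ∀ c ∈ Z, p c = 0 := by
  classical
  intro c hcZ
  by_contra hc
  have hind : AlgebraicIndependent (algebraicClosure k K)
      fun p : (a : A) × {j : J a // j ≠ j0 a} => t p.1 p.2.1 / t p.1 (j0 p.1) :=
    hgen.algebraicClosure
  obtain ⟨x, hx⟩ : ∃ x : Fin (n + 1) → RatFunc K, ∀ i, x i = algebraMap (Polynomial K) (RatFunc K)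
    (p i) := ⟨_, fun _ => rfl⟩
  have hinj : Function.Injective (algebraMap (Polynomial K) (RatFunc K)) :=
    IsFractionRing.injective (Polynomial K) (RatFunc K)
  have hev : ∀ H : MvPolynomial (Fin (n + 1)) K, aeval x H =
      algebraMap (Polynomial K) (RatFunc K) (aeval p H) := fun H => by
    have h1 : x = fun i => algebraMap (Polynomial K) (RatFunc K) (p i) := funext hx
    rw [h1]
    exact (MvPolynomial.map_aeval p (algebraMap (Polynomial K) (RatFunc K)) H).symm ▸ rfl
  have hxne : ∀ i, p i ≠ 0 → x i ≠ 0 := fun i hi => by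
    rw [hx, Ne, map_eq_zero_iff _ hinj]
    exact hi
  obtain ⟨i, j, hj, hij⟩ := hp
  have h1 := Pool.Agent.TH145.GE.curve_lin V hVh hV P hP t j0 h0 hind c (fun a I hI => by
    obtain ⟨i, e, he, rfl⟩ := hI
    obtain ⟨j, hj⟩ := hZ c hcZ a i e he
    refine ⟨j, ?_⟩
    rw [hj, Pool.Agent.TH145.GD.sM, X_pow_eq_monomial, X_pow_eq_monomial, monomial_mul, one_mul])
    hF Finset.univ x (hxne c hc) ⟨i, j, hxne j hj, by
      rintro ⟨b, hb⟩
      apply hij b
      apply hinj
      rw [map_mul, ← hx, ← hx]
      have h2 := hxne j hj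
      have h3 : algebraMap (Polynomial K) (RatFunc K) (Polynomial.C b) = algebraMap K (RatFunc K) b :=
        rfl
      rw [h3, hb]
      field_simp⟩ (fun f hf => by rw [hev, hpV f hf, map_zero])
    (fun a _ => by rw [hev, hpF a, map_zero]) (fun a ha => absurd (Finset.mem_univ a) ha)
  have h2 : {Q : Place K (RatFunc K) | ∃ a, a ∉ (Finset.univ : Finset A) ∧
      d a * pord Q x < Q.ord (aeval x (F a))} = ∅ := by
    ext Q
    simp
  rw [h2, Set.ncard_empty, Nat.cast_zero, add_zero, Finset.card_univ] at h1
  have hpht : 0 ≤ pht K x :=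
    (hgt_nonneg _).trans (Pool.Agent.W603.CX.hgt_le_pht (k := K) x (hxne c hc) (hxne c hc))
  have h3 : canDeg K (RatFunc K) = -2 :=
    Pool.Agent.W619.PQ.canDeg_rational (x := (RatFunc.X : RatFunc K)) RatFunc.adjoin_X
  rw [h3] at h1
  have hA' : (Fintype.card A : ℤ) + 2 = m := by exact_mod_cast hA
  have h4 : (0 : ℤ) ≤ ((∑ a, d a : ℕ) : ℤ) + Fintype.card A - 2 * m := by
    have : ((m : ℤ) + 2) ≤ (∑ a, d a : ℕ) := by exact_mod_cast hd
    linarith
  have h5 := mul_nonneg h4 hpht
  linarith

end Pool.Agent.Results.MP_f8080c_ag.GenericSurfaces
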